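import Mathlib
import Pool.Agent.Helper156_SP.Dis7

set_option autoImplicit false

/-!
# MP_6bc78b_nt: the derivatives at the zeros near the critical line, with multiplicities and clusters

Unconditionally, for every real `p > 0`, all `A ≥ 0` and all `k` and `m`, uniformly in the scale `1 ≤ K ≤ (log T) / 2`:
if every zero `ρ` of zeta with `|Re ρ - 1/2| ≤ A / log T`, `0 < Im ρ ≤ T` is counted with its multiplicity and with the
`k`-th power of the number of all nontrivial zeros (on or off the line) at distance at most `K / log T` from `ρ`, then the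
sum of `|ζ^(m)(ρ + σ_ρ)|^p` is at most a constant multiple of `K^k (log T)^(1 + m p) M_p(T + W)`, for all shifts
`|σ_ρ| ≤ A / log T`; for `p ≤ 4` this is at most a constant multiple of `K^k T (log T)^(1 + m p + p²/4)`. With `m = 1`,
`k = 0`, `σ = 0` this is the order `T (log T)^((p/2 + 1)²)` conjectured by Gonek and Hejhal for the discrete moments of
`ζ'`; on the critical line `|ζ'(ρ)| = |Z'(γ)|`.

Proof idea: a maximum of `|ζ|` against a decaying weight near `t` gives a point `u` such that the rescaled function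
`f(w) = ζ(1/2 + iu + w/Λ) / |ζ(1/2 + iu)|`, `Λ = log t`, is bounded on discs of radius `R` by `exp(c R)`. By Jensen's
formula there are at most `3 c R` zeros within `R / Λ` of `1/2 + iu`, hence at most a constant times
`K (1 + Λ |t - u|)` within `K / Λ` of `1/2 + it`. A power of `1 + Λ |t - u|` is compensated by the decay of the weight, and
the integral of `log |f|` over a segment of the critical line is bounded from below, so that `|ζ(1/2 + iu)|^p` is bounded
by the local mean of `|ζ|^p`.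
-/

open Complex MeasureTheory

namespace Pool.Agent.Results.MP_6bc78b_nt.MomentsAtZeros

/-- The moment `M_p(T) = ∫_0^T |ζ(1/2 + it)|^p dt`, for real `p`. -/
noncomputable def M (p T : ℝ) : ℝ := ∫ t in (0:ℝ)..T, ‖riemannZeta (1 / 2 + t * I)‖ ^ p

/-- The multiplicity of a zero of zeta. -/
noncomputable def mult (ρ : ℂ) : ℕ := analyticOrderNatAt riemannZeta ρ

/-- The nontrivial zeros of zeta with ordinate in `(0, T]`. -/
def zeros (T : ℝ) : Set ℂ :=
  {s : ℂ | riemannZeta s = 0 ∧ 0 < s.re ∧ s.re < 1 ∧ 0 < s.im ∧ s.im ≤ T}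

/-- The zeros `ρ` of zeta with `0 < Im ρ ≤ T` at distance at most `A / log T` from the critical line. -/
def nearZeros (A T : ℝ) : Set ℂ :=
  {ρ : ℂ | riemannZeta ρ = 0 ∧ |ρ.re - 1 / 2| ≤ A / Real.log T ∧ 0 < ρ.im ∧ ρ.im ≤ T}

/-- The number, counted with multiplicity, of the nontrivial zeros with ordinate in `(0, T]` at distance at most
`K / log T` from `ρ` (if `ρ` is such a zero, at least the multiplicity of `ρ` itself). -/
noncomputable def cluster (K T : ℝ) (ρ : ℂ) : ℝ :=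
  ∑ᶠ s ∈ {s : ℂ | s ∈ zeros T ∧ ‖s - ρ‖ ≤ K / Real.log T}, (mult s : ℝ)

/-- The sum over the zeros near the critical line, counted with multiplicity, of
`(cluster)^k |ζ^(m)(ρ + σ_ρ)|^p`. -/
noncomputable def zeroSum (A K : ℝ) (k m : ℕ) (p : ℝ) (σ : ℂ → ℂ) (T : ℝ) : ℝ :=
  ∑ᶠ ρ ∈ nearZeros A T, (mult ρ : ℝ) * cluster K T ρ ^ k * ‖iteratedDeriv m riemannZeta (ρ + σ ρ)‖ ^ p

theorem zeros_finite (T : ℝ) : (zeros T).Finite :=
  (H370.zeta_zeros_finite T).subset fun _ h => ⟨h.2.1, h.2.2.1, h.2.2.2.1, h.2.2.2.2, h.1⟩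

theorem nearZeros_finite {A T : ℝ} (h : A / Real.log T < 1 / 2) : (nearZeros A T).Finite := by
  refine (zeros_finite T).subset fun ρ hρ => ?_
  obtain ⟨h1, h2, h3, h4⟩ := hρ
  have h5 := abs_le.1 h2
  exact ⟨h1, by linarith [h5.1], by linarith [h5.2], h3, h4⟩

theorem result (A p : ℝ) (N k : ℕ) (hA : 0 ≤ A) (hp : 0 < p) :
    ∃ C W T₀ : ℝ, 0 < C ∧ ∀ T : ℝ, T₀ ≤ T → (nearZeros A T).Finite ∧
      ∀ K : ℝ, 1 ≤ K → K ≤ Real.log T / 2 →
      ∀ σ : ℂ → ℂ, (∀ ρ ∈ nearZeros A T, ‖σ ρ‖ ≤ A / Real.log T) → ∀ m : ℕ, m ≤ N →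
        zeroSum A K k m p σ T ≤ C * (K ^ k * (Real.log T ^ (1 + m * p) * M p (T + W))) ∧
        (p ≤ 4 → zeroSum A K k m p σ T ≤ C * (K ^ k * (T * Real.log T ^ (1 + m * p + p ^ 2 / 4)))) := by
  classical
  obtain ⟨C, W, T₀, hC, h⟩ := Helper156_SP.disc_final2 (p := p) (A := A) N k hp hA
  have hev : ∀ᶠ T : ℝ in Filter.atTop, 4 * A + 1 ≤ Real.log T := Real.tendsto_log_atTop.eventually_ge_atTop _
  obtain ⟨T₁, hT₁⟩ := Filter.eventually_atTop.1 hev
  refine ⟨C, W, max T₀ T₁, hC, fun T hT => ?_⟩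
  have hL := hT₁ T ((le_max_right _ _).trans hT)
  have hL0 : 0 < Real.log T := by linarith
  have hfin : (nearZeros A T).Finite := nearZeros_finite (by
    rw [div_lt_iff₀ hL0]; linarith)
  refine ⟨hfin, fun K hK hKL σ hσ m hm => ?_⟩
  have hmem : ∀ ρ, ρ ∈ hfin.toFinset ↔ ρ ∈ nearZeros A T := fun ρ => hfin.mem_toFinset
  have hall := zeros_finite T
  have hmem2 : ∀ ρ, ρ ∈ hall.toFinset ↔ ρ ∈ zeros T := fun ρ => hall.mem_toFinset
  have h1 := h T ((le_max_left _ _).trans hT) hfin.toFinset (fun ρ hρ => (hmem ρ).1 hρ) hall.toFinset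
    (fun s hs => (hmem2 s).1 hs) σ (fun ρ hρ => hσ ρ ((hmem ρ).1 hρ)) K hK hKL m hm
  have hcl : ∀ ρ, cluster K T ρ = Helper156_SP.mz (hall.toFinset.filter fun s => ‖s - ρ‖ ≤ K / Real.log T) := by
    intro ρ
    have e : {s : ℂ | s ∈ zeros T ∧ ‖s - ρ‖ ≤ K / Real.log T} =
        ((hall.toFinset.filter fun s => ‖s - ρ‖ ≤ K / Real.log T : Finset ℂ) : Set ℂ) := by
      ext s
      rw [Finset.mem_coe, Finset.mem_filter, hmem2]
      rfl
    unfold cluster
    rw [e, finsum_mem_coe_finset]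
    rfl
  have hs : zeroSum A K k m p σ T = ∑ ρ ∈ hfin.toFinset, (analyticOrderNatAt riemannZeta ρ : ℝ) *
      Helper156_SP.mz (hall.toFinset.filter fun s => ‖s - ρ‖ ≤ K / Real.log T) ^ k *
        ‖iteratedDeriv m riemannZeta (ρ + σ ρ)‖ ^ p := by
    unfold zeroSum
    rw [finsum_mem_eq_finite_toFinset_sum _ hfin]
    refine Finset.sum_congr rfl fun ρ _ => ?_
    rw [hcl ρ]
    rfl
  rw [hs]
  exact h1

end Pool.Agent.Results.MP_6bc78b_nt.MomentsAtZeros
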