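import Pool.Agent.Helper647_SG.Lat3

/-!
# Every lattice sees the zeros of odd multiplicity of Hardy's function

Let `m[a, b)` be the number of real zeros of `Z` in `[a, b)`, counted with multiplicity; it is odd
if and only if the number of the zeros of odd multiplicity in `[a, b)` is odd.  Unconditionally,
for every `A > 0` there is `c > 0` such that for all large `T`, EVERY step `0 < δ ≤ A / log T` and
EVERY real `u`:

* the finite sequence of the values `Z(u + kδ)` with `T ≤ u + kδ ≤ 2T` has at least `c T log T`
  changes of sign (vanishing terms are left out);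
* `m[u + kδ, u + (k+1)δ)` is odd for at least `c T log T` of the `k` with
  `[u + kδ, u + (k+1)δ)` in `[T, 2T]`;
* it is even for at least `c T / δ` of them, that is, for a positive proportion of all the cells.

So sampling `Z` on an arbitrary lattice, with a step that may be any fixed multiple of the mean
spacing `2π / log T` of the zeros, detects a positive proportion of zeros of odd multiplicity, and
for no lattice are the zeros grouped so that nearly all the cells contain an even number, or so that
nearly all the cells contain an odd number of them.  For `δ → 0` the first two statements become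
Selberg's theorem.

Idea of the proof.  `X = Z |B|²`, `B` Selberg's mollifier.  (1) Near every point `X` is, up to a
tiny error, a trigonometric sum with frequencies at most `3 log T`; so the values on a lattice of
step at least `1 / log T` satisfy `∑ X(u + kδ)² ≪ log T ∫ X²`, and the same holds for the sums
`S(u) = ∑_j X(u + jδ) φ(j / J)`, whose mean square is `O(J^(3/2))` (Poisson summation and a bound for
the mass of `X` at the frequencies near the multiples of `2π/δ`).  (2) The first moment over every
lattice: `|∑_k ζ(1/2 + i(u + kδ)) B(u + kδ)²|` is at least half the number of points, since the terms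
`m^(-iu)` that resonate with the lattice have `m` close to `e^(2πl/δ)`, `l ≥ 1`, hence are few and
large.  (3) If there were few changes of sign, `|S|` would be of size `J` at most points.
-/

open Filter Topology Complex Set

namespace Pool.Agent.Results.MP_6bc78b_nt.SignsAlongLattices

/-- the phase `exp (i ϑ(t))`, with `ϑ(t) = arg Γ(1/4 + i t / 2) - (t / 2) log π` -/
noncomputable def phase (t : ℝ) : ℂ :=
  Gamma (1 / 4 + I * t / 2) / ‖Gamma (1 / 4 + I * t / 2)‖ * cexp (-(I * (t / 2) * Real.log Real.pi))

/-- Hardy's function `Z(t) = exp (i ϑ(t)) ζ(1/2 + i t)`; the theorem contains the proof that this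
number is real -/
noncomputable def Z (t : ℝ) : ℝ := (phase t * riemannZeta (1 / 2 + I * t)).re

/-- the real zeros of `Z` in `[a, b)` -/
def zeros (a b : ℝ) : Set ℝ := {t : ℝ | a ≤ t ∧ t < b ∧ Z t = 0}

/-- their number, counted with multiplicity (the multiplicity of `1/2 + it` as a zero of zeta) -/
noncomputable def count (a b : ℝ) : ℕ := ∑ᶠ t ∈ zeros a b, analyticOrderNatAt riemannZeta (1 / 2 + I * t)

/-- the changes of sign of the sequence `Z(u + kδ)`, `T ≤ u + kδ ≤ 2T`, vanishing terms left out -/
def signChanges (T δ u : ℝ) : Set ℤ := {k : ℤ | T ≤ u + δ * k ∧ ∃ l : ℤ, k < l ∧ u + δ * l ≤ 2 * T ∧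
  Z (u + δ * k) * Z (u + δ * l) < 0 ∧ ∀ j : ℤ, k < j → j < l → Z (u + δ * j) = 0}

/-- the cells `[u + kδ, u + (k+1)δ)` in `[T, 2T]` -/
def cells (T δ u : ℝ) : Set ℤ := {k : ℤ | T ≤ u + δ * k ∧ u + δ * (k + 1) ≤ 2 * T}

lemma count_eq (a b : ℝ) : count a b = Helper647.PT.cr a b := by
  unfold count Helper647.PT.cr
  have e : zeros a b = {t : ℝ | a ≤ t ∧ t < b ∧ riemannZeta (1 / 2 + I * t) = 0} := by
    ext t
    simp only [zeros, Set.mem_ofPred_eq]
    have h : Z t = 0 ↔ riemannZeta (1 / 2 + I * t) = 0 := Helper647.SG.Zr_zero t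
    rw [h]
  rw [e]
  rfl

/-- **The theorem.** -/
theorem result :
    -- Hardy's function is real, and the sets of zeros and the sets of indices are finite
    (∀ t : ℝ, ((Z t : ℝ) : ℂ) = phase t * riemannZeta (1 / 2 + I * t)) ∧
    (∀ a b : ℝ, (zeros a b).Finite) ∧
    (∀ T δ u : ℝ, 0 < δ → (signChanges T δ u).Finite ∧ (cells T δ u).Finite) ∧
    (∀ A : ℝ, 0 < A → ∃ c T₀ : ℝ, 0 < c ∧ ∀ T δ u : ℝ, T₀ ≤ T → 0 < δ → δ * Real.log T ≤ A →
      -- changes of sign
      c * (T * Real.log T) ≤ ((signChanges T δ u).ncard : ℝ) ∧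
      -- cells with an odd number of zeros
      c * (T * Real.log T) ≤
        ({k : ℤ | k ∈ cells T δ u ∧ Odd (count (u + δ * k) (u + δ * (k + 1)))}.ncard : ℝ) ∧
      -- cells with an even number of zeros
      c * (T / δ) ≤
        ({k : ℤ | k ∈ cells T δ u ∧ Even (count (u + δ * k) (u + δ * (k + 1)))}.ncard : ℝ)) := by
  refine ⟨R304.SG.Z_re, fun a b => ?_, fun T δ u hδ => ⟨Helper647.SG.sgs_fin hδ T u, Helper647.SG.cell_fin hδ T u⟩,
    fun A hA => ?_⟩
  · have e : zeros a b = {t : ℝ | a ≤ t ∧ t < b ∧ riemannZeta (1 / 2 + I * t) = 0} := by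
      ext t
      simp only [zeros, Set.mem_ofPred_eq]
      have h : Z t = 0 ↔ riemannZeta (1 / 2 + I * t) = 0 := Helper647.SG.Zr_zero t
      rw [h]
    rw [e]
    exact Helper647.PT.fz a b
  · obtain ⟨c, T0, hc, h⟩ := Helper647.SG.lattice A hA
    refine ⟨c, max T0 2, hc, fun T δ u hT hδ hδA => ?_⟩
    obtain ⟨h1, h2, h3⟩ := h T δ u ((le_max_left _ _).trans hT) hδ hδA
    have hT2 : 2 ≤ T := (le_max_right _ _).trans hT
    refine ⟨h1, ?_, ?_⟩
    · have e : {k : ℤ | k ∈ cells T δ u ∧ Odd (count (u + δ * k) (u + δ * (k + 1)))} =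
          Helper647.SG.ods T δ u := by
        ext k
        simp only [cells, Helper647.SG.ods, Set.mem_ofPred_eq]
        constructor
        · rintro ⟨⟨x1, x2⟩, x3⟩
          exact ⟨x1, x2, (Helper647.SG.ct_odd (by linarith) _).2 (by rw [← count_eq]; exact x3)⟩
        · rintro ⟨x1, x2, x3⟩
          exact ⟨⟨x1, x2⟩, by rw [count_eq]; exact (Helper647.SG.ct_odd (by linarith) _).1 x3⟩
      rw [e]
      exact h2
    · have e : {k : ℤ | k ∈ cells T δ u ∧ Even (count (u + δ * k) (u + δ * (k + 1)))} =
          Helper647.SG.evs T δ u := by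
        ext k
        simp only [cells, Helper647.SG.evs, Set.mem_ofPred_eq]
        constructor
        · rintro ⟨⟨x1, x2⟩, x3⟩
          exact ⟨x1, x2, (Helper647.SG.ct_even (by linarith) _).2 (by rw [← count_eq]; exact x3)⟩
        · rintro ⟨x1, x2, x3⟩
          exact ⟨⟨x1, x2⟩, by rw [count_eq]; exact (Helper647.SG.ct_even (by linarith) _).1 x3⟩
      rw [e]
      exact h3

end Pool.Agent.Results.MP_6bc78b_nt.SignsAlongLattices
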